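import Pool.Agent.Lib_helper28.TE28.Res

/-!
# Reflections: products and commutators of matrices close to one
-/

set_option autoImplicit false

namespace Pool.Agent.RFL

open Matrix Topology
open Pool.Agent.RF

section

variable {G : Type} [Group G] {C : Type} [NormedField C] [IsUltrametricDist C] {d : ℕ}
  (X : G →* Matrix (Fin d) (Fin d) C)

/-- The matrix `X(g)` is `1 + π Y` with an integral matrix `Y` with the reduction `T`. -/
def Lv (π : nv C) (g : G) (T : Matrix (Fin d) (Fin d) (IsLocalRing.ResidueField (nv C))) : Prop :=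
  ∃ Y : Matrix (Fin d) (Fin d) (nv C), X g = (1 + π • Y).map (nv C).subtype ∧
    Y.map (IsLocalRing.residue (nv C)) = T

theorem lv_one (π : nv C) : Lv X π 1 0 := by
  refine ⟨0, ?_, ?_⟩
  · rw [map_one, smul_zero, add_zero, Matrix.map_one _ (map_zero _) (map_one _)]
  · exact Matrix.map_zero _ (map_zero _)

theorem lv_mul {π : nv C} (hπ : ‖(π : C)‖ < 1) {g h : G}
    {T T' : Matrix (Fin d) (Fin d) (IsLocalRing.ResidueField (nv C))} (hg : Lv X π g T)
    (hh : Lv X π h T') : Lv X π (g * h) (T + T') := by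
  obtain ⟨Y, h1, h2⟩ := hg
  obtain ⟨Y', h3, h4⟩ := hh
  refine ⟨Y + Y' + π • (Y * Y'), ?_, ?_⟩
  · rw [map_mul, h1, h3, ← Matrix.map_mul]
    congr 1
    rw [add_mul, one_mul, Matrix.mul_add, Matrix.mul_one, Matrix.smul_mul, Matrix.mul_smul,
      smul_add, smul_add]
    abel
  · rw [Matrix.map_add _ (map_add _), Matrix.map_add _ (map_add _), h2, h4]
    have h5 : (π • (Y * Y')).map (IsLocalRing.residue (nv C)) = 0 := by
      ext i k
      rw [Matrix.map_apply, Matrix.smul_apply, smul_eq_mul, map_mul, residue_zero π hπ, zero_mul]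
      rfl
    rw [h5, add_zero]

theorem lv_pow {π : nv C} (hπ : ‖(π : C)‖ < 1) {g : G}
    {T : Matrix (Fin d) (Fin d) (IsLocalRing.ResidueField (nv C))} (hg : Lv X π g T) (n : ℕ) :
    Lv X π (g ^ n) (n • T) := by
  induction n with
  | zero =>
    rw [pow_zero, zero_smul]
    exact lv_one X π
  | succ n ih =>
    rw [pow_succ, succ_nsmul]
    exact lv_mul X hπ ih hg

theorem lv_list {π : nv C} (hπ : ‖(π : C)‖ < 1) {ι : Type} (l : List ι) (g : ι → G)
    (T : ι → Matrix (Fin d) (Fin d) (IsLocalRing.ResidueField (nv C)))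
    (hg : ∀ i, Lv X π (g i) (T i)) : Lv X π (l.map g).prod (l.map T).sum := by
  induction l with
  | nil => exact lv_one X π
  | cons a l ih =>
    rw [List.map_cons, List.prod_cons, List.map_cons, List.sum_cons]
    exact lv_mul X hπ (hg a) ih

/-- The inverse. -/
theorem lv_inv {π : nv C} (hπ : ‖(π : C)‖ < 1) {g : G}
    {T : Matrix (Fin d) (Fin d) (IsLocalRing.ResidueField (nv C))} (hg : Lv X π g T) :
    ∃ W : Matrix (Fin d) (Fin d) (nv C), X g⁻¹ = W.map (nv C).subtype ∧
      W.map (IsLocalRing.residue (nv C)) = 1 := by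
  obtain ⟨Y, h1, h2⟩ := hg
  have hred : (1 + π • Y).map (IsLocalRing.residue (nv C)) = 1 := by
    ext i k
    rw [Matrix.map_apply, Matrix.add_apply, Matrix.smul_apply, smul_eq_mul, map_add, map_mul,
      residue_zero π hπ, zero_mul, add_zero, Matrix.one_apply, Matrix.one_apply]
    split_ifs
    · exact map_one _
    · exact map_zero _
  have hdet : IsUnit (1 + π • Y).det := by
    rw [← IsLocalRing.residue_ne_zero_iff_isUnit, RingHom.map_det, RingHom.mapMatrix_apply, hred,
      Matrix.det_one]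
    exact one_ne_zero
  refine ⟨(1 + π • Y)⁻¹, ?_, ?_⟩
  · have h3 : X g⁻¹ * X g = 1 := by rw [← map_mul, inv_mul_cancel, map_one]
    have h4 : X g * ((1 + π • Y)⁻¹).map (nv C).subtype = 1 := by
      rw [h1, ← Matrix.map_mul, Matrix.mul_nonsing_inv _ hdet,
        Matrix.map_one _ (map_zero _) (map_one _)]
    calc X g⁻¹ = X g⁻¹ * (X g * ((1 + π • Y)⁻¹).map (nv C).subtype) := by rw [h4, mul_one]
      _ = ((1 + π • Y)⁻¹).map (nv C).subtype := by rw [← mul_assoc, h3, one_mul]
  · have h3 : ((1 + π • Y)⁻¹).map (IsLocalRing.residue (nv C)) *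
        (1 + π • Y).map (IsLocalRing.residue (nv C)) = 1 := by
      rw [← Matrix.map_mul, Matrix.nonsing_inv_mul _ hdet,
        Matrix.map_one _ (map_zero _) (map_one _)]
    rwa [hred, mul_one] at h3

/-- The commutator. -/
theorem lv_comm {π π' : nv C} (hπ : ‖(π : C)‖ < 1) (hπ' : ‖(π' : C)‖ < 1) {g h : G}
    {T T' : Matrix (Fin d) (Fin d) (IsLocalRing.ResidueField (nv C))} (hg : Lv X π g T)
    (hh : Lv X π' h T') : Lv X (π * π') (g * h * g⁻¹ * h⁻¹) (T * T' - T' * T) := by
  obtain ⟨W, hW1, hW2⟩ := lv_inv X hπ hg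
  obtain ⟨W', hW1', hW2'⟩ := lv_inv X hπ' hh
  obtain ⟨Y, h1, h2⟩ := hg
  obtain ⟨Y', h3, h4⟩ := hh
  refine ⟨(Y * Y' - Y' * Y) * (W * W'), ?_, ?_⟩
  · have h5 : X (g * h * g⁻¹ * h⁻¹) = (X g * X h - X h * X g) * (X g⁻¹ * X h⁻¹) + 1 := by
      rw [sub_mul]
      have h6 : X h * X g * (X g⁻¹ * X h⁻¹) = 1 := by
        rw [← map_mul, ← map_mul, ← map_mul, ← _root_.mul_inv_rev, mul_inv_cancel, map_one]
      rw [h6, sub_add_cancel, ← map_mul, ← map_mul, ← map_mul, mul_assoc (g * h)]
    have h7 : X g * X h - X h * X g = ((π * π') • (Y * Y' - Y' * Y)).map (nv C).subtype := by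
      rw [h1, h3, ← Matrix.map_mul, ← Matrix.map_mul, ← Matrix.map_sub _ (map_sub _)]
      congr 1
      rw [add_mul, one_mul, Matrix.mul_add, Matrix.mul_one, add_mul, one_mul, Matrix.mul_add,
        Matrix.mul_one, Matrix.smul_mul, Matrix.mul_smul, Matrix.smul_mul, Matrix.mul_smul,
        smul_sub, smul_smul, smul_smul, mul_comm π' π]
      abel
    rw [h5, h7, hW1, hW1', ← Matrix.map_mul, ← Matrix.map_mul, add_comm (1 : Matrix (Fin d) (Fin d)
      (nv C)), Matrix.map_add _ (map_add _), Matrix.map_one _ (map_zero _) (map_one _),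
      Matrix.smul_mul]
  · rw [Matrix.map_mul, Matrix.map_mul, hW2, hW2', mul_one, mul_one,
      Matrix.map_sub _ (map_sub _), Matrix.map_mul, Matrix.map_mul, h2, h4]

end

end Pool.Agent.RFL
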