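import Pool.Agent.Lib_helper87.UB.Defs
import Pool.Agent.Lib_helper61.TU.Rank

/-!
# Reflections: the eigenvalues of `1 + π Y` which are roots of unity
-/

set_option autoImplicit false

namespace Pool.Agent.RFL

open Matrix NumberField Topology Polynomial
open Pool.Agent.TT Pool.Agent.TB Pool.Agent.TF Pool.Agent.RF Pool.Agent.TU

theorem ct_sum {ι k β : Type} [AddCommMonoid k] (s : Finset ι) (m : Multiset β) (f : ι → β → k) :
    (m.map fun y => ∑ i ∈ s, f i y).sum = ∑ i ∈ s, (m.map (f i)).sum := by
  induction m using Multiset.induction_on with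
  | empty => simp
  | cons a m ih => simp only [Multiset.map_cons, Multiset.sum_cons, ih, Finset.sum_add_distrib]

/-- The roots of the characteristic polynomial of `1 + c A`. -/
theorem ct_affine {k : Type} [Field k] [CharZero k] [IsAlgClosed k] {d : ℕ}
    (A : Matrix (Fin d) (Fin d) k) (c : k) :
    (1 + c • A).charpoly.roots = A.charpoly.roots.map (fun y => 1 + c * y) := by
  have hs : ∀ A : Matrix (Fin d) (Fin d) k, A.charpoly.roots.card = d := by
    intro A
    rw [← (IsAlgClosed.splits A.charpoly).natDegree_eq_card_roots,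
      Matrix.charpoly_natDegree_eq_dim, Fintype.card_fin]
  apply tv_multiset
  · rw [Multiset.card_map, hs, hs]
  · intro r _
    rw [← tu_mtrace, Multiset.map_map]
    have h1 : (1 + c • A) ^ r = ∑ i ∈ Finset.range (r + 1), (c ^ i * (r.choose i : k)) • A ^ i := by
      rw [add_comm, (Commute.one_right (c • A)).add_pow]
      apply Finset.sum_congr rfl
      intro i _
      rw [one_pow, mul_one, _root_.smul_pow, mul_smul, ← Nat.cast_comm, ← nsmul_eq_mul,
        smul_comm, Nat.cast_smul_eq_nsmul]
    rw [h1, Matrix.trace_sum]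
    have h2 : ∀ y : k, ((fun x => x ^ r) ∘ fun y => 1 + c * y) y =
        ∑ i ∈ Finset.range (r + 1), (c ^ i * (r.choose i : k)) * y ^ i := by
      intro y
      simp only [Function.comp_apply]
      rw [add_comm, add_pow]
      apply Finset.sum_congr rfl
      intro i _
      rw [one_pow, mul_one, mul_pow]
      ring
    rw [Multiset.map_congr rfl fun y _ => h2 y, ct_sum]
    apply Finset.sum_congr rfl
    intro i _
    rw [Multiset.sum_map_mul_left, Matrix.trace_smul, smul_eq_mul, tu_mtrace]

open Classical in
/-- The roots of the characteristic polynomial of an integral matrix. -/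
theorem ct_small {C : Type} [Field C] [IsAlgClosed C] (O : ValuationSubring C) {d : ℕ}
    (Y : Matrix (Fin d) (Fin d) O) :
    ∃ z : Fin d → O, (Y.map O.subtype).charpoly.roots = Finset.univ.val.map (fun i => (z i : C)) ∧
      ∀ e : ℕ, (Y.map (IsLocalRing.residue O)).charpoly.coeff e ≠ 0 →
        (Finset.univ.filter fun i => IsLocalRing.residue O (z i) = 0).card ≤ e := by
  classical
  obtain ⟨d', y, hy⟩ := np_family (Y.map O.subtype).charpoly.roots
  have hd : d' = d := by
    have h1 := congrArg Multiset.card hy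
    rw [Multiset.card_map, Finset.card_val, Finset.card_univ, Fintype.card_fin,
      ← (IsAlgClosed.splits _).natDegree_eq_card_roots,
      Matrix.charpoly_natDegree_eq_dim, Fintype.card_fin] at h1
    exact h1
  subst hd
  have hint : ∀ i, ∃ z : O, (z : C) = y i := by
    intro i
    have h3 : IsIntegral O (y i) := by
      refine ⟨Y.charpoly, Matrix.charpoly_monic _, ?_⟩
      have h4 : y i ∈ (Y.map O.subtype).charpoly.roots := by
        rw [← hy]
        exact Multiset.mem_map.mpr ⟨i, Finset.mem_univ i, rfl⟩
      rw [Polynomial.mem_roots (Matrix.charpoly_monic _).ne_zero, Matrix.charpoly_map,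
        Polynomial.IsRoot.def, Polynomial.eval_map] at h4
      exact h4
    obtain ⟨z, hz⟩ := IsIntegrallyClosed.isIntegral_iff.mp h3
    exact ⟨z, hz⟩
  choose z hz using hint
  refine ⟨z, ?_, ?_⟩
  · rw [← hy]
    apply Multiset.map_congr rfl
    intro i _
    exact (hz i).symm
  · intro e he
    have hinj : Function.Injective O.subtype := Subtype.val_injective
    have hF : Y.charpoly = ∏ i, (X - Polynomial.C (z i)) := by
      apply Polynomial.map_injective O.subtype hinj
      rw [← Matrix.charpoly_map, (IsAlgClosed.splits _).eq_prod_roots_of_monic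
        (Matrix.charpoly_monic (Y.map O.subtype)), ← hy, Multiset.map_map, Polynomial.map_prod]
      rw [Finset.prod_eq_multiset_prod]
      congr 1
      apply Multiset.map_congr rfl
      intro i _
      simp only [Function.comp_apply, Polynomial.map_sub, Polynomial.map_X, Polynomial.map_C]
      rw [← hz i]
      rfl
    have hG : (Y.map (IsLocalRing.residue O)).charpoly =
        ∏ i, (X - Polynomial.C (IsLocalRing.residue O (z i))) := by
      rw [Matrix.charpoly_map, hF, Polynomial.map_prod]
      apply Finset.prod_congr rfl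
      intro i _
      simp only [Polynomial.map_sub, Polynomial.map_X, Polynomial.map_C]
    by_contra hcon
    push Not at hcon
    apply he
    set s := (Finset.univ.filter fun i => IsLocalRing.residue O (z i) = 0).card with hs
    have hdvd : (X : (IsLocalRing.ResidueField O)[X]) ^ s ∣
        (Y.map (IsLocalRing.residue O)).charpoly := by
      rw [hG, ← Finset.prod_filter_mul_prod_filter_not Finset.univ
        (fun i => IsLocalRing.residue O (z i) = 0)]
      apply Dvd.dvd.mul_right
      rw [hs, ← Finset.prod_const]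
      apply Finset.prod_dvd_prod_of_dvd
      intro i hi
      rw [Finset.mem_filter] at hi
      rw [hi.2, map_zero, sub_zero]
    exact Polynomial.X_pow_dvd_iff.mp hdvd e hcon

/-- The number of the eigenvalues of `1 + π Y` which are `n`-th roots of unity. -/
theorem ct_count {p : ℕ} [Fact p.Prime] {d : ℕ} (π : nv ℂ_[p])
    (hπ : ∀ (x : ℂ_[p]) (n : ℕ), 0 < n → x ^ n = 1 → ‖(π : ℂ_[p])‖ ≠ ‖1 - x‖)
    (Y : Matrix (Fin d) (Fin d) (nv ℂ_[p])) (e : ℕ)
    (he : (Y.map (IsLocalRing.residue (nv ℂ_[p]))).charpoly.coeff e ≠ 0) (n : ℕ) (hn : 0 < n) :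
    (((1 + π • Y).map (nv ℂ_[p]).subtype) ^ n).charpoly.rootMultiplicity 1 ≤ e := by
  classical
  obtain ⟨z, hz, hze⟩ := ct_small (nv ℂ_[p]) Y
  have h1 : (1 + π • Y).map (nv ℂ_[p]).subtype = 1 + (π : ℂ_[p]) • Y.map (nv ℂ_[p]).subtype := by
    rw [Matrix.map_add _ (map_add _), Matrix.map_one _ (map_zero _) (map_one _)]
    rfl
  rw [h1, ← Polynomial.count_roots, tv_pow, ct_affine, hz, Multiset.map_map, Multiset.map_map,
    Multiset.count_map, ← Finset.filter_val, ← Finset.card_def]
  refine le_trans (Finset.card_le_card ?_) (hze e he)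
  intro i hi
  rw [Finset.mem_filter] at hi ⊢
  refine ⟨hi.1, ?_⟩
  have h2 : (1 + (π : ℂ_[p]) * (z i : ℂ_[p])) ^ n = 1 := hi.2.symm
  have h3 := hπ _ n hn h2
  have h4 : ‖1 - (1 + (π : ℂ_[p]) * (z i : ℂ_[p]))‖ = ‖(π : ℂ_[p])‖ * ‖(z i : ℂ_[p])‖ := by
    rw [sub_add_cancel_left, norm_neg, norm_mul]
  rw [h4] at h3
  apply residue_zero
  refine lt_of_le_of_ne (z i).2 ?_
  intro h5
  rw [h5, mul_one] at h3
  exact h3 rfl

end Pool.Agent.RFL
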