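import Pool.Agent.Lib_helper87.RF.Statement
import Pool.Agent.Lib_helper87.UB.F1

/-!
# Reflections: Frobenius elements and their powers
-/

set_option autoImplicit false

namespace Pool.Agent.RFL

open Matrix NumberField Topology Polynomial
open Pool.Agent.TT Pool.Agent.TB Pool.Agent.TF Pool.Agent.RF Pool.Agent.TU

open Classical in
/-- The roots of a polynomial in two algebraically closed fields. -/
theorem fp_count {E k : Type} [Field E] [Field k] [IsAlgClosed k] (i : E →+* k) (f : E[X])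
    (n c : ℕ) : ((f.map i).roots.map (fun x => x ^ n)).count (c : k) =
      ((f.map (algebraMap E (AlgebraicClosure E))).roots.map (fun x => x ^ n)).count
        (c : AlgebraicClosure E) := by
  classical
  let _ : Algebra E k := i.toAlgebra
  let j : AlgebraicClosure E →ₐ[E] k := IsAlgClosed.lift
  have h1 : i = (j : AlgebraicClosure E →+* k).comp (algebraMap E (AlgebraicClosure E)) := by
    ext x
    exact (j.commutes x).symm
  have h2 : (f.map i).roots =
      (f.map (algebraMap E (AlgebraicClosure E))).roots.map (j : AlgebraicClosure E →+* k) := by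
    rw [h1, ← Polynomial.map_map]
    exact (IsAlgClosed.splits _).roots_map _
  rw [h2, Multiset.map_map]
  have h3 : (fun x : k => x ^ n) ∘ (j : AlgebraicClosure E →+* k) =
      (j : AlgebraicClosure E →+* k) ∘ (fun x => x ^ n) := by
    funext x
    simp only [Function.comp_apply, map_pow]
  rw [h3, ← Multiset.map_map]
  have h4 : (c : k) = (j : AlgebraicClosure E →+* k) (c : AlgebraicClosure E) := by
    rw [map_natCast]
  rw [h4]
  exact Multiset.count_map_eq_count' _ _ (j : AlgebraicClosure E →+* k).injective _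

/-- The eigenvalues of the powers of two endomorphisms with the same characteristic polynomial. -/
theorem fp_pow {E C k : Type} [Field E] [Field C] [CharZero C] [IsAlgClosed C] [Field k]
    [CharZero k] [IsAlgClosed k] (i : E →+* C) (i' : E →+* k) {d : ℕ} (A : Matrix (Fin d) (Fin d) C)
    {V : Type} [AddCommGroup V] [Module k V] [Module.Finite k V] (T : Module.End k V) (f : E[X])
    (h1 : A.charpoly = f.map i) (h2 : T.charpoly = f.map i') (n c : ℕ) :
    (T ^ n).charpoly.rootMultiplicity (c : k) = (A ^ n).charpoly.rootMultiplicity (c : C) := by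
  classical
  let b := Module.finBasis k V
  have h3 : (LinearMap.toMatrix b b T).charpoly = f.map i' := by
    rw [← h2]
    exact LinearMap.charpoly_toMatrix T b
  have h4 : (LinearMap.toMatrix b b T ^ n).charpoly = (T ^ n).charpoly := by
    rw [← LinearMap.charpoly_toMatrix (T ^ n) b, LinearMap.toMatrix_pow]
  rw [← h4, ← Polynomial.count_roots, ← Polynomial.count_roots, tv_pow, tv_pow, h1, h3,
    fp_count i, fp_count i']

/-- The inverses of the Frobenius elements are dense; for them and all their powers the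
characteristic polynomials agree (in the form in which we use it). -/
theorem fp_dense {K : Type} [Field K] [NumberField K] [Algebra K Qbar] {E : Type} [Field E]
    {p : ℕ} [Fact p.Prime] (ip : E →+* ℂ_[p]) {d : ℕ}
    (R : (Qbar ≃ₐ[K] Qbar) →* Matrix (Fin d) (Fin d) ℂ_[p])
    {ℓ : ℕ} [Fact ℓ.Prime] (il : E →+* PadicAlgCl ℓ)
    {V : Type} [AddCommGroup V] [Module (PadicAlgCl ℓ) V] [Module.Finite (PadicAlgCl ℓ) V]
    (π : Representation (PadicAlgCl ℓ) (Qbar ≃ₐ[K] Qbar) V) (hπ : Compatible ip il R π)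
    (g : Qbar ≃ₐ[K] Qbar) (U : Set (Qbar ≃ₐ[K] Qbar)) (hU : U ∈ 𝓝 g) :
    ∃ t ∈ U, ∃ q : ℕ, 0 < q ∧ cyc ℓ t * (q : PadicAlgCl ℓ) = 1 ∧ cycC p t * (q : ℂ_[p]) = 1 ∧
      ∀ n c : ℕ, (π (t ^ n)).charpoly.rootMultiplicity (c : PadicAlgCl ℓ) =
        (R (t ^ n)).charpoly.rootMultiplicity (c : ℂ_[p]) := by
  classical
  obtain ⟨B, hB⟩ := hπ
  have hU1 : (fun σ : Qbar ≃ₐ[K] Qbar => σ⁻¹) ⁻¹' U ∈ 𝓝 g⁻¹ := by
    apply (continuous_inv.continuousAt (x := g⁻¹)).preimage_mem_nhds
    rw [inv_inv]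
    exact hU
  obtain ⟨q, hq, hqB, P, hP, hqP, σ, hσ1, hσ⟩ := fb_dense g⁻¹ _ hU1 (B ∪ {ℓ, p})
  rw [Finset.mem_union, Finset.mem_insert, Finset.mem_singleton, not_or, not_or] at hqB
  obtain ⟨hqB1, hql, hqp⟩ := hqB
  refine ⟨σ⁻¹, hσ1, q, hq.pos, ?_, ?_, ?_⟩
  · rw [← cyc_frob hq (Ne.symm hql) hP hqP hσ, ← tv_cyc_mul, inv_mul_cancel, tv_cyc_one]
  · rw [← cycC_frob hq (Ne.symm hqp) hP hqP hσ, ← cycC_mul, inv_mul_cancel, cycC_one]
  · obtain ⟨f, hf1, hf2⟩ := hB q hq hqB1 P hP hqP σ hσ
    intro n c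
    rw [map_pow, map_pow]
    exact fp_pow ip il (R σ⁻¹) (π σ⁻¹) f hf1 hf2 n c

end Pool.Agent.RFL
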