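import Pool.Agent.Lib_helper87.RF.Count
import Pool.Agent.Lib_helper87.RF.Frob
import Pool.Agent.Lib_helper87.UB.M2
import Pool.Agent.Lib_helper7.TE.Tools

/-!
# Reflections: the bound by one element
-/

set_option autoImplicit false

namespace Pool.Agent.RFL

open Matrix NumberField Topology Polynomial
open Pool.Agent.TT Pool.Agent.TB Pool.Agent.TF Pool.Agent.RF Pool.Agent.TU

theorem dp_smul {C : Type} [Field C] {n : Type} [Fintype n] [DecidableEq n] (X : Matrix n n C)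
    (c : C) (hc : c ≠ 0) :
    (c • X).charpoly.rootMultiplicity 1 = X.charpoly.rootMultiplicity c⁻¹ := by
  have h1 := Pool.Agent.UB.mu_smul (Matrix.toLin' X) c hc
  rw [← map_smul, Matrix.charpoly_toLin', Matrix.charpoly_toLin'] at h1
  exact h1

/-- A matrix close to `1 + π Y`. -/
theorem dp_close {p : ℕ} [Fact p.Prime] {d : ℕ} (π : nv ℂ_[p]) (hπ0 : π ≠ 0)
    (Y : Matrix (Fin d) (Fin d) (nv ℂ_[p])) (X : Matrix (Fin d) (Fin d) ℂ_[p])
    (hX : ∀ i k, ‖(X - (1 + π • Y).map (nv ℂ_[p]).subtype) i k‖ < ‖(π : ℂ_[p])‖) :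
    ∃ Y' : Matrix (Fin d) (Fin d) (nv ℂ_[p]),
      X = (1 + π • Y').map (nv ℂ_[p]).subtype ∧
      Y'.map (IsLocalRing.residue (nv ℂ_[p])) = Y.map (IsLocalRing.residue (nv ℂ_[p])) := by
  have hπ : (π : ℂ_[p]) ≠ 0 := fun h => hπ0 (Subtype.ext h)
  have hπn : 0 < ‖(π : ℂ_[p])‖ := norm_pos_iff.mpr hπ
  have h1 : ∀ i k, ‖(X - (1 + π • Y).map (nv ℂ_[p]).subtype) i k / (π : ℂ_[p])‖ < 1 := by
    intro i k
    rw [norm_div, div_lt_one hπn]
    exact hX i k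
  let Z : Matrix (Fin d) (Fin d) (nv ℂ_[p]) := fun i k =>
    ⟨(X - (1 + π • Y).map (nv ℂ_[p]).subtype) i k / (π : ℂ_[p]), (h1 i k).le⟩
  refine ⟨Y + Z, ?_, ?_⟩
  · ext i k
    have h2 : ((1 + π • (Y + Z)).map (nv ℂ_[p]).subtype) i k =
        ((1 + π • Y).map (nv ℂ_[p]).subtype) i k + (π : ℂ_[p]) *
          ((X - (1 + π • Y).map (nv ℂ_[p]).subtype) i k / (π : ℂ_[p])) := by
      rw [smul_add, ← add_assoc]
      rfl
    rw [h2, mul_div_cancel₀ _ hπ, Matrix.sub_apply]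
    ring
  · ext i k
    rw [Matrix.map_apply, Matrix.add_apply, map_add, Matrix.map_apply]
    have h3 : IsLocalRing.residue (nv ℂ_[p]) (Z i k) = 0 := residue_zero _ (h1 i k)
    rw [h3, add_zero]

/-- **The bound by one element.** -/
theorem dp_main {K : Type} [Field K] [NumberField K] [Algebra K Qbar] {E : Type} [Field E]
    {p : ℕ} [Fact p.Prime] (ip : E →+* ℂ_[p]) {d : ℕ}
    (R : (Qbar ≃ₐ[K] Qbar) →* Matrix (Fin d) (Fin d) ℂ_[p]) (hR : Continuous R) (j : ℕ)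
    (w : Qbar ≃ₐ[K] Qbar)
    (π : nv ℂ_[p]) (hπ0 : π ≠ 0)
    (hπ : ∀ (x : ℂ_[p]) (n : ℕ), 0 < n → x ^ n = 1 → ‖(π : ℂ_[p])‖ ≠ ‖1 - x‖)
    (Y : Matrix (Fin d) (Fin d) (nv ℂ_[p]))
    (hw : cycC p w ^ j • R w = (1 + π • Y).map (nv ℂ_[p]).subtype) (e : ℕ)
    (he : (Y.map (IsLocalRing.residue (nv ℂ_[p]))).charpoly.coeff e ≠ 0)
    {ℓ : ℕ} [Fact ℓ.Prime] (il : E →+* PadicAlgCl ℓ) {V : Type} [AddCommGroup V]
    [Module (PadicAlgCl ℓ) V] [Module.Finite (PadicAlgCl ℓ) V]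
    (ρ : Representation (PadicAlgCl ℓ) (Qbar ≃ₐ[K] Qbar) V) (hρ : Compatible ip il R ρ) :
    TateClassesLE ρ j e := by
  classical
  intro H hH W₁ W₂ _ hT
  have hgal := Pool.Agent.TE.isGalois_Qbar (K := K)
  have hπn : 0 < ‖(π : ℂ_[p])‖ := norm_pos_iff.mpr fun h => hπ0 (Subtype.ext h)
  let X : (Qbar ≃ₐ[K] Qbar) →* Matrix (Fin d) (Fin d) ℂ_[p] :=
    { toFun := fun g => cycC p g ^ j • R g
      map_one' := by rw [cycC_one, one_pow, one_smul, map_one]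
      map_mul' := fun g h => by rw [cycC_mul, mul_pow, map_mul, smul_mul_smul_comm] }
  have hXdef : ∀ g, X g = cycC p g ^ j • R g := fun g => rfl
  have hXc : Continuous X := by
    change Continuous (fun g => cycC p g ^ j • R g)
    exact ((cycC_continuous (p := p) (K := K)).pow j).smul hR
  have hXw : X w = (1 + π • Y).map (nv ℂ_[p]).subtype := hw
  clear_value X
  -- an inverse Frobenius element near `w`
  have hU : {g | ∀ i k, ‖(X g - (1 + π • Y).map (nv ℂ_[p]).subtype) i k‖ < ‖(π : ℂ_[p])‖} ∈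
      𝓝 w := by
    have h1 : IsOpen {g | ∀ i k, ‖(X g - (1 + π • Y).map (nv ℂ_[p]).subtype) i k‖ <
        ‖(π : ℂ_[p])‖} := by
      have h2 : {g | ∀ i k, ‖(X g - (1 + π • Y).map (nv ℂ_[p]).subtype) i k‖ <
          ‖(π : ℂ_[p])‖} = ⋂ i, ⋂ k, {g | ‖(X g - (1 + π • Y).map (nv ℂ_[p]).subtype) i k‖ <
            ‖(π : ℂ_[p])‖} := by
        ext g
        simp only [Set.mem_ofPred_eq, Set.mem_iInter]
      rw [h2]
      apply isOpen_iInter_of_finite
      intro i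
      apply isOpen_iInter_of_finite
      intro k
      apply isOpen_lt _ continuous_const
      apply Continuous.norm
      exact (continuous_apply_apply i k).comp (hXc.sub continuous_const)
    apply h1.mem_nhds
    intro i k
    rw [hXw, sub_self, Matrix.zero_apply, norm_zero]
    exact hπn
  obtain ⟨t, htU, q, hq, hcyc, hcycp, hmult⟩ := fp_dense ip R il ρ hρ w _ hU
  obtain ⟨Y', hY1, hY2⟩ := dp_close π hπ0 Y (X t) htU
  -- a power in `H`
  have hfi : H.FiniteIndex :=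
    haveI := H.quotient_finite_of_isOpen hH
    Subgroup.finiteIndex_of_finite_quotient
  obtain ⟨n, hn, -, hnH⟩ := Subgroup.exists_pow_mem_of_index_ne_zero hfi.index_ne_zero t
  have hq0 : (q : PadicAlgCl ℓ) ≠ 0 := by
    have := hq.ne'
    exact_mod_cast this
  have hqp0 : (q : ℂ_[p]) ≠ 0 := by
    have := hq.ne'
    exact_mod_cast this
  have hc1 : ∀ n : ℕ, cyc ℓ (t ^ n) * (q : PadicAlgCl ℓ) ^ n = 1 := by
    intro n
    induction n with
    | zero => rw [pow_zero, pow_zero, tv_cyc_one, mul_one]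
    | succ n ih =>
      rw [pow_succ, tv_cyc_mul, pow_succ]
      calc cyc ℓ (t ^ n) * cyc ℓ t * ((q : PadicAlgCl ℓ) ^ n * q) =
          (cyc ℓ (t ^ n) * (q : PadicAlgCl ℓ) ^ n) * (cyc ℓ t * q) := by ring
        _ = 1 := by rw [ih, hcyc, one_mul]
  have hc2 : ∀ n : ℕ, cycC p (t ^ n) * (q : ℂ_[p]) ^ n = 1 := by
    intro n
    induction n with
    | zero => rw [pow_zero, pow_zero, cycC_one, mul_one]
    | succ n ih =>
      rw [pow_succ, cycC_mul, pow_succ]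
      calc cycC p (t ^ n) * cycC p t * ((q : ℂ_[p]) ^ n * q) =
          (cycC p (t ^ n) * (q : ℂ_[p]) ^ n) * (cycC p t * q) := by ring
        _ = 1 := by rw [ih, hcycp, one_mul]
  have hcn1 : cyc ℓ (t ^ n) ^ j = (((q ^ n) ^ j : ℕ) : PadicAlgCl ℓ)⁻¹ := by
    push_cast
    rw [← inv_pow]
    congr 1
    exact eq_inv_of_mul_eq_one_left (hc1 n)
  have hcn2 : cycC p (t ^ n) ^ j = (((q ^ n) ^ j : ℕ) : ℂ_[p])⁻¹ := by
    push_cast
    rw [← inv_pow]
    congr 1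
    exact eq_inv_of_mul_eq_one_left (hc2 n)
  have hc0 : (((q ^ n) ^ j : ℕ) : PadicAlgCl ℓ) ≠ 0 := by
    push_cast
    exact pow_ne_zero _ (pow_ne_zero _ hq0)
  have hc0' : (((q ^ n) ^ j : ℕ) : ℂ_[p]) ≠ 0 := by
    push_cast
    exact pow_ne_zero _ (pow_ne_zero _ hqp0)
  have h1 : Module.finrank (PadicAlgCl ℓ) W₂ ≤ Module.finrank (PadicAlgCl ℓ) W₁ +
      (ρ (t ^ n)).charpoly.rootMultiplicity (((q ^ n) ^ j : ℕ) : PadicAlgCl ℓ) := by
    apply tv_sub
    intro x hx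
    have h1 := hT _ hnH x hx
    rw [hcn1] at h1
    have h2 := W₁.smul_mem (((q ^ n) ^ j : ℕ) : PadicAlgCl ℓ) h1
    rw [smul_sub, smul_smul, mul_inv_cancel₀ hc0, one_smul] at h2
    exact h2
  refine h1.trans (Nat.add_le_add_left ?_ _)
  rw [hmult n]
  have h3 := dp_smul (R (t ^ n)) (cycC p (t ^ n) ^ j) (by
    rw [hcn2]
    exact inv_ne_zero hc0')
  rw [← hXdef, hcn2, inv_inv] at h3
  rw [← h3, map_pow, hY1]
  apply ct_count π hπ Y' e _ n hn
  rw [hY2]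
  exact he

end Pool.Agent.RFL
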