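import Mathlib

/-!
# Reflections: an invertible combination of triple commutators
-/

set_option autoImplicit false

namespace Pool.Agent.RFL

open Matrix Kronecker

section

variable {k : Type} [Field k] {m : ℕ}

/-- The projection to a coordinate. -/
def sg (k : Type) [Field k] {m : ℕ} (i : Fin m) : Matrix (Fin m) (Fin m) k := single i i 1

/-- The matrix `P ⊗ 1`. -/
def kr (c : ℕ) (P : Matrix (Fin m) (Fin m) k) : Matrix (Fin m × Fin c) (Fin m × Fin c) k :=
  P ⊗ₖ (1 : Matrix (Fin c) (Fin c) k)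

theorem kr_apply (c : ℕ) (P : Matrix (Fin m) (Fin m) k) (i l : Fin m) (a b : Fin c) :
    kr c P (i, a) (l, b) = P i l * (1 : Matrix (Fin c) (Fin c) k) a b := rfl

theorem kr_mul (c : ℕ) (P Q : Matrix (Fin m) (Fin m) k) : kr c P * kr c Q = kr c (P * Q) := by
  unfold kr
  rw [← Matrix.mul_kronecker_mul, Matrix.mul_one]

theorem kr_sub (c : ℕ) (P Q : Matrix (Fin m) (Fin m) k) : kr c P - kr c Q = kr c (P - Q) := by
  ext ⟨i, a⟩ ⟨l, b⟩
  rw [Matrix.sub_apply, kr_apply, kr_apply, kr_apply, Matrix.sub_apply, sub_mul]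

theorem kr_sum (c : ℕ) {ι : Type} (s : Finset ι) (P : ι → Matrix (Fin m) (Fin m) k) (n : ι → ℕ) :
    kr c (∑ i ∈ s, n i • P i) = ∑ i ∈ s, n i • kr c (P i) := by
  ext ⟨i, a⟩ ⟨l, b⟩
  simp only [kr_apply, Matrix.sum_apply, Matrix.smul_apply, Finset.sum_mul, smul_mul_assoc]

theorem kr_det (c : ℕ) (P : Matrix (Fin m) (Fin m) k) : (kr c P).det = P.det ^ c := by
  unfold kr
  rw [Matrix.det_kronecker, Matrix.det_one, one_pow, mul_one, Fintype.card_fin]

/-- The product of the matrices `v`, `P ⊗ 1` and `f`. -/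
def vpf {d c : ℕ} (v : Matrix (Fin d) (Fin m × Fin c) k) (P : Matrix (Fin m) (Fin m) k)
    (f : Matrix (Fin m × Fin c) (Fin d) k) : Matrix (Fin d) (Fin d) k := v * kr c P * f

theorem iv_sg {d c : ℕ} (v : Matrix (Fin d) (Fin m × Fin c) k)
    (f : Matrix (Fin m × Fin c) (Fin d) k) (i : Fin m) :
    vpf v (sg k i) f = Matrix.of (fun l (a : Fin c) => v l (i, a)) *
      Matrix.of (fun (a : Fin c) l => f (i, a) l) := by
  unfold vpf
  ext a b
  rw [Matrix.mul_apply, Matrix.mul_apply, Fintype.sum_prod_type, Finset.sum_eq_single i]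
  · apply Finset.sum_congr rfl
    intro x _
    rw [Matrix.of_apply, Matrix.of_apply]
    congr 1
    rw [Matrix.mul_apply, Finset.sum_eq_single (i, x)]
    · unfold sg
      rw [kr_apply, Matrix.single_apply, if_pos ⟨rfl, rfl⟩, Matrix.one_apply_eq,
        mul_one, mul_one]
    · rintro ⟨c', e⟩ _ hc
      unfold sg
      rw [kr_apply, Matrix.single_apply, Matrix.one_apply]
      by_cases h1 : i = c'
      · by_cases h2 : e = x
        · exact absurd (by rw [h1, h2]) hc
        · rw [if_neg h2, mul_zero, mul_zero]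
      · rw [if_neg (fun h0 => h1 h0.1), zero_mul, mul_zero]
    · intro h0
      exact absurd (Finset.mem_univ _) h0
  · intro c' _ hc
    apply Finset.sum_eq_zero
    intro x _
    rw [Matrix.mul_apply, Finset.sum_eq_zero, zero_mul]
    rintro ⟨e, y⟩ _
    unfold sg
    rw [kr_apply, Matrix.single_apply, if_neg (fun h0 => hc h0.2.symm), zero_mul,
      mul_zero]
  · intro h0
    exact absurd (Finset.mem_univ _) h0

theorem iv_vpf_mul {d c : ℕ} (v : Matrix (Fin d) (Fin m × Fin c) k)
    (f : Matrix (Fin m × Fin c) (Fin d) k) (B : Matrix (Fin m) (Fin m) k)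
    (hB : f * v = kr c B) (P Q : Matrix (Fin m) (Fin m) k) :
    vpf v P f * vpf v Q f = vpf v (P * B * Q) f := by
  unfold vpf
  calc v * kr c P * f * (v * kr c Q * f) = v * (kr c P * (f * v) * kr c Q) * f := by
        simp only [Matrix.mul_assoc]
    _ = v * kr c (P * B * Q) * f := by
        rw [hB, kr_mul, kr_mul]

theorem iv_vpf_sub {d c : ℕ} (v : Matrix (Fin d) (Fin m × Fin c) k)
    (f : Matrix (Fin m × Fin c) (Fin d) k) (P Q : Matrix (Fin m) (Fin m) k) :
    vpf v P f - vpf v Q f = vpf v (P - Q) f := by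
  unfold vpf
  rw [← kr_sub, Matrix.mul_sub, Matrix.sub_mul]

theorem iv_vpf_sum {d c : ℕ} (v : Matrix (Fin d) (Fin m × Fin c) k)
    (f : Matrix (Fin m × Fin c) (Fin d) k) {ι : Type} (s : Finset ι)
    (P : ι → Matrix (Fin m) (Fin m) k) (n : ι → ℕ) :
    ∑ i ∈ s, n i • vpf v (P i) f = vpf v (∑ i ∈ s, n i • P i) f := by
  unfold vpf
  rw [kr_sum, Matrix.mul_sum, Matrix.sum_mul]
  apply Finset.sum_congr rfl
  intro i _
  rw [Matrix.mul_smul, Matrix.smul_mul]

/-- The leading term of the triple commutator of two reflections. -/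
def tri (A : Matrix (Fin m) (Fin m) k) (i l : Fin m) : Matrix (Fin m) (Fin m) k :=
  single i l (A i i * A i l) - single i i (2 * (A i l * A l i)) + single l i (A i i * A l i)

theorem iv_tri (A : Matrix (Fin m) (Fin m) k) (i l : Fin m) :
    sg k i * A * (sg k i * A * sg k l - sg k l * A * sg k i) -
      (sg k i * A * sg k l - sg k l * A * sg k i) * A * sg k i =
      tri A i l := by
  unfold sg
  simp only [single_mul_mul_single, one_mul, mul_one, Matrix.mul_sub, Matrix.sub_mul]
  unfold tri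
  have h1 : single i i (2 * (A i l * A l i)) = single i i (A i l * A l i) +
      (single i i (A i l * A l i) : Matrix (Fin m) (Fin m) k) := by
    rw [← single_add, two_mul]
  rw [h1, mul_comm (A l i) (A i i)]
  abel

theorem iv_tri_mulVec (A : Matrix (Fin m) (Fin m) k) (i l : Fin m) (x : Fin m → k) (r : Fin m) :
    (tri A i l *ᵥ x) r = (if i = r then A i i * A i l * x l - 2 * (A i l * A l i) * x i else 0) +
      (if l = r then A i i * A l i * x i else 0) := by
  unfold tri
  rw [Matrix.add_mulVec, Matrix.sub_mulVec, single_mulVec_eq, single_mulVec_eq, single_mulVec_eq]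
  simp only [Pi.add_apply, Pi.sub_apply, Pi.smul_apply, Pi.single_apply, smul_eq_mul, mul_ite,
    mul_one, mul_zero, eq_comm (a := r)]
  by_cases h1 : i = r
  · simp only [h1, if_true]
  · simp only [h1, if_false, sub_zero]

/-- One of three values of a quadratic polynomial is not zero. -/
theorem iv_quad (h2 : (2 : k) ≠ 0) (a b g c : k) (hg : g ≠ 0) :
    ∃ n : ℕ, (b + n * a) ^ 2 - 4 * n * g + c ≠ 0 := by
  by_contra hcon
  push Not at hcon
  have h0 := hcon 0
  have h1 := hcon 1
  have h3 := hcon 2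
  push_cast at h0 h1 h3
  have ha : a = 0 := by
    have h4 : 2 * a ^ 2 = 0 := by linear_combination h3 - 2 * h1 + h0
    rcases mul_eq_zero.mp h4 with h5 | h5
    · exact absurd h5 h2
    · exact pow_eq_zero_iff two_ne_zero |>.mp h5
  rw [ha] at h0 h1
  have h5 : 2 * 2 * g = 0 := by linear_combination h0 - h1
  rcases mul_eq_zero.mp h5 with h6 | h6
  · rcases mul_eq_zero.mp h6 with h7 | h7
    · exact h2 h7
    · exact h2 h7
  · exact hg h6

/-- **An invertible combination.** -/
theorem iv_main (h2 : (2 : k) ≠ 0) (A : Matrix (Fin m) (Fin m) k) (κ : Fin m → Fin m)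
    (Z : Set (Fin m)) (hκ : ∀ i, A i (κ i) * A (κ i) i ≠ 0) (hZ1 : ∀ i, i ∉ Z → κ i ∈ Z)
    (hZ2 : ∀ i ∈ Z, κ i ∉ Z ∧ κ (κ i) = i) :
    ∃ n : Fin m → ℕ, (∑ i, n i • tri A i (κ i)).det ≠ 0 := by
  classical
  have hq : ∀ i, ∃ n : ℕ, (i ∉ Z → n = 1) ∧ (i ∈ Z → (A (κ i) (κ i) + n * A i i) ^ 2 -
      4 * n * (A i (κ i) * A (κ i) i) + (∑ l, if κ l = i ∧ l ≠ κ i then A l l ^ 2 else 0) ≠ 0) := by
    intro i
    by_cases hi : i ∈ Z
    · obtain ⟨n, hn⟩ := iv_quad h2 (A i i) (A (κ i) (κ i)) (A i (κ i) * A (κ i) i)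
        (∑ l, if κ l = i ∧ l ≠ κ i then A l l ^ 2 else 0) (hκ i)
      exact ⟨n, fun h => absurd hi h, fun _ => hn⟩
    · exact ⟨1, fun _ => rfl, fun h => absurd h hi⟩
  choose n hn1 hn2 using hq
  refine ⟨n, ?_⟩
  intro hdet
  obtain ⟨x, hx0, hx⟩ := Matrix.exists_mulVec_eq_zero_iff.mpr hdet
  apply hx0
  have hrow : ∀ r, (n r : k) * (A r r * A r (κ r) * x (κ r) - 2 * (A r (κ r) * A (κ r) r) * x r) +
      ∑ i, (if κ i = r then (n i : k) * (A i i * A r i * x i) else 0) = 0 := by
    intro r
    have h1 := congrFun hx r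
    rw [Matrix.sum_mulVec, Finset.sum_apply, Pi.zero_apply] at h1
    refine Eq.trans (Eq.symm ?_) h1
    have h3 : ∀ i, ((n i • tri A i (κ i)) *ᵥ x) r =
        (if i = r then (n r : k) * (A r r * A r (κ r) * x (κ r) -
          2 * (A r (κ r) * A (κ r) r) * x r) else 0) +
        (if κ i = r then (n i : k) * (A i i * A r i * x i) else 0) := by
      intro i
      rw [Matrix.smul_mulVec, Pi.smul_apply, nsmul_eq_mul, iv_tri_mulVec, mul_add]
      congr 1
      · by_cases h : i = r
        · subst h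
          rw [if_pos rfl, if_pos rfl]
        · rw [if_neg h, if_neg h, mul_zero]
      · by_cases h : κ i = r
        · rw [if_pos h, if_pos h, h]
        · rw [if_neg h, if_neg h, mul_zero]
    rw [Finset.sum_congr rfl fun i _ => h3 i, Finset.sum_add_distrib]
    congr 1
    rw [Finset.sum_ite_eq' Finset.univ r]
    rw [if_pos (Finset.mem_univ _)]
  -- the leaves
  have hleaf : ∀ i, i ∉ Z → 2 * A (κ i) i * x i =
      (A i i + if κ (κ i) = i then (n (κ i) : k) * A (κ i) (κ i) else 0) * x (κ i) := by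
    intro i hi
    have h1 := hrow i
    have h3 : (∑ l, (if κ l = i then (n l : k) * (A l l * A i l * x l) else 0)) =
        if κ (κ i) = i then (n (κ i) : k) * (A (κ i) (κ i) * A i (κ i) * x (κ i)) else 0 := by
      rw [Finset.sum_eq_single (κ i)]
      · intro l _ hl
        rw [if_neg]
        intro h0
        by_cases hlZ : l ∈ Z
        · have h4 := (hZ2 l hlZ).2
          rw [h0] at h4
          exact hl h4.symm
        · have h4 := hZ1 l hlZ
          rw [h0] at h4
          exact hi h4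
      · intro h0
        exact absurd (Finset.mem_univ _) h0
    rw [h3, hn1 i hi, Nat.cast_one, one_mul] at h1
    have h5 : A i (κ i) ≠ 0 := left_ne_zero_of_mul (hκ i)
    apply mul_left_cancel₀ h5
    by_cases h6 : κ (κ i) = i
    · rw [if_pos h6] at h1 ⊢
      linear_combination -h1
    · rw [if_neg h6] at h1 ⊢
      linear_combination -h1
  -- the centres
  have hcent : ∀ i ∈ Z, x i = 0 := by
    intro r hr
    obtain ⟨hr1, hr2⟩ := hZ2 r hr
    have hsum : 2 * (∑ i, (if κ i = r then (n i : k) * (A i i * A r i * x i) else 0)) =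
        (A (κ r) (κ r) * (A (κ r) (κ r) + n r * A r r) +
          ∑ l, if κ l = r ∧ l ≠ κ r then A l l ^ 2 else 0) * x r := by
      have h1 : ∀ i, 2 * (if κ i = r then (n i : k) * (A i i * A r i * x i) else 0) =
          (if i = κ r then A (κ r) (κ r) * (A (κ r) (κ r) + n r * A r r) * x r else 0) +
          (if κ i = r ∧ i ≠ κ r then A i i ^ 2 else 0) * x r := by
        intro i
        by_cases hi : κ i = r
        · have hiZ : i ∉ Z := by
            intro h0
            have h4 := (hZ2 i h0).1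
            rw [hi] at h4
            exact h4 hr
          have h4 := hleaf i hiZ
          rw [hi] at h4
          rw [if_pos hi, hn1 i hiZ, Nat.cast_one, one_mul]
          by_cases h5 : i = κ r
          · rw [if_pos h5, if_neg (fun h0 => h0.2 h5), zero_mul, add_zero]
            rw [if_pos h5.symm] at h4
            rw [← h5]
            linear_combination A i i * h4
          · rw [if_neg h5, if_pos ⟨hi, h5⟩, zero_add]
            rw [if_neg (fun h0 => h5 h0.symm), add_zero] at h4
            linear_combination A i i * h4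
        · have h6 : i ≠ κ r := by
            intro h0
            apply hi
            rw [h0, hr2]
          have h7 : ¬(κ i = r ∧ i ≠ κ r) := fun h0 => hi h0.1
          simp only [if_neg hi, if_neg h6, if_neg h7, zero_mul, mul_zero, add_zero]
      rw [Finset.mul_sum, Finset.sum_congr rfl fun i _ => h1 i, Finset.sum_add_distrib,
        Finset.sum_ite_eq' Finset.univ (κ r), if_pos (Finset.mem_univ _), ← Finset.sum_mul]
      ring
    have h4 := hleaf (κ r) hr1
    rw [hr2, if_pos rfl] at h4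
    have h5 : ((A (κ r) (κ r) + n r * A r r) ^ 2 -
      4 * n r * (A r (κ r) * A (κ r) r) + (∑ l, if κ l = r ∧ l ≠ κ r then A l l ^ 2 else 0)) *
        x r = 0 := by
      have h6 := hrow r
      linear_combination 2 * h6 - hsum - (n r * A r r) * h4
    exact (mul_eq_zero.mp h5).resolve_left (hn2 r hr)
  funext i
  rw [Pi.zero_apply]
  by_cases hi : i ∈ Z
  · exact hcent i hi
  · have h4 := hleaf i hi
    rw [hcent (κ i) (hZ1 i hi), mul_zero] at h4
    have h5 : A (κ i) i ≠ 0 := right_ne_zero_of_mul (hκ i)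
    exact (mul_eq_zero.mp h4).resolve_left (mul_ne_zero h2 h5)

/-- The leading term of the commutator of two reflections. -/
def duo (A : Matrix (Fin m) (Fin m) k) (i l : Fin m) : Matrix (Fin m) (Fin m) k :=
  single i l (A i l) - single l i (A l i)

theorem iv_duo (A : Matrix (Fin m) (Fin m) k) (i l : Fin m) :
    sg k i * A * sg k l - sg k l * A * sg k i = duo A i l := by
  unfold sg duo
  simp only [single_mul_mul_single, one_mul, mul_one]

theorem iv_duo_mulVec (A : Matrix (Fin m) (Fin m) k) (i l : Fin m) (x : Fin m → k) (r : Fin m) :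
    (duo A i l *ᵥ x) r = (if i = r then A i l * x l else 0) - (if l = r then A l i * x i else 0) := by
  unfold duo
  rw [Matrix.sub_mulVec, single_mulVec_eq, single_mulVec_eq]
  simp only [Pi.sub_apply, Pi.smul_apply, Pi.single_apply, smul_eq_mul, mul_ite, mul_one, mul_zero,
    eq_comm (a := r)]

/-- A sum over the pairs of an involution. -/
theorem iv_invol (μ : Fin m → Fin m) (hμ : ∀ i, μ (μ i) = i) (hne : ∀ i, μ i ≠ i)
    (D : Fin m → Matrix (Fin m) (Fin m) k) (hD : ∀ i r, i ≠ r → μ i ≠ r → ∀ x, (D i *ᵥ x) r = 0)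
    (hD1 : ∀ i x, (D i *ᵥ x) (μ i) = 0 → x i = 0) (hD2 : ∀ i x, (D i *ᵥ x) i = 0 → x (μ i) = 0) :
    (∑ i, (if i < μ i then 1 else 0 : ℕ) • D i).det ≠ 0 := by
  intro hdet
  obtain ⟨x, hx0, hx⟩ := Matrix.exists_mulVec_eq_zero_iff.mpr hdet
  apply hx0
  funext l
  have h1 := congrFun hx (μ l)
  rw [Matrix.sum_mulVec, Finset.sum_apply, Pi.zero_apply] at h1
  rw [Pi.zero_apply]
  rcases lt_or_gt_of_ne (hne l) with h8 | h8
  · rw [Finset.sum_eq_single (μ l)] at h1
    · rw [hμ, if_pos h8, one_smul] at h1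
      have h2 := hD2 (μ l) x h1
      rwa [hμ] at h2
    · intro i _ hi
      by_cases h2 : i = l
      · rw [h2, if_neg (lt_asymm h8), zero_smul, Matrix.zero_mulVec, Pi.zero_apply]
      · have h3 : μ i ≠ μ l := fun h0 => h2 (by rw [← hμ i, h0, hμ])
        rw [Matrix.smul_mulVec, Pi.smul_apply, hD i (μ l) hi h3, smul_zero]
    · intro h0
      exact absurd (Finset.mem_univ _) h0
  · rw [Finset.sum_eq_single l] at h1
    · rw [if_pos h8, one_smul] at h1
      exact hD1 l x h1
    · intro i _ hi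
      by_cases h2 : i = μ l
      · rw [h2, hμ, if_neg (lt_asymm h8), zero_smul, Matrix.zero_mulVec, Pi.zero_apply]
      · have h3 : μ i ≠ μ l := fun h0 => hi (by rw [← hμ i, h0, hμ])
        rw [Matrix.smul_mulVec, Pi.smul_apply, hD i (μ l) h2 h3, smul_zero]
    · intro h0
      exact absurd (Finset.mem_univ _) h0

/-- **An invertible combination of commutators.** -/
theorem iv_match2 (A : Matrix (Fin m) (Fin m) k) (μ : Fin m → Fin m) (hμ : ∀ i, μ (μ i) = i)
    (hne : ∀ i, μ i ≠ i) (hA : ∀ i, A i (μ i) ≠ 0) :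
    (∑ i, (if i < μ i then 1 else 0 : ℕ) • duo A i (μ i)).det ≠ 0 := by
  apply iv_invol μ hμ hne
  · intro i r h1 h2 x
    rw [iv_duo_mulVec, if_neg h1, if_neg h2, sub_zero]
  · intro i x h1
    rw [iv_duo_mulVec, if_neg (fun h0 => hne i h0.symm), if_pos rfl, zero_sub, neg_eq_zero] at h1
    have h2 := hA (μ i)
    rw [hμ] at h2
    exact (mul_eq_zero.mp h1).resolve_left h2
  · intro i x h1
    rw [iv_duo_mulVec, if_pos rfl, if_neg (hne i), sub_zero] at h1
    exact (mul_eq_zero.mp h1).resolve_left (hA i)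

/-- **An invertible combination of triple commutators in characteristic two.** -/
theorem iv_match3 (h2 : (2 : k) = 0) (A : Matrix (Fin m) (Fin m) k) (μ : Fin m → Fin m)
    (hμ : ∀ i, μ (μ i) = i) (hne : ∀ i, μ i ≠ i) (hA : ∀ i, A i (μ i) ≠ 0) (hd : ∀ i, A i i ≠ 0) :
    (∑ i, (if i < μ i then 1 else 0 : ℕ) • tri A i (μ i)).det ≠ 0 := by
  apply iv_invol μ hμ hne
  · intro i r h1 h3 x
    rw [iv_tri_mulVec, if_neg h1, if_neg h3, add_zero]
  · intro i x h1
    rw [iv_tri_mulVec, if_neg (fun h0 => hne i h0.symm), if_pos rfl, zero_add] at h1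
    have h3 := hA (μ i)
    rw [hμ] at h3
    exact (mul_eq_zero.mp h1).resolve_left (mul_ne_zero (hd i) h3)
  · intro i x h1
    rw [iv_tri_mulVec, if_pos rfl, if_neg (hne i), add_zero, h2, zero_mul, zero_mul,
      sub_zero] at h1
    exact (mul_eq_zero.mp h1).resolve_left (mul_ne_zero (hd i) (hA i))

end

end Pool.Agent.RFL
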