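import Mathlib

/-!
# Reflections: star forests
-/

set_option autoImplicit false

namespace Pool.Agent.RFL

/-- A finite graph without isolated vertices has a spanning forest of stars with at least one leaf:
`Z` is the set of the centres, `κ` maps every leaf to its centre and every centre to one of its
leaves. -/
theorem st_forest {m : ℕ} (r : Fin m → Fin m → Prop) (hsymm : ∀ i k, r i k → r k i)
    (hirr : ∀ i k, r i k → i ≠ k) (h : ∀ i, ∃ k, r i k) :
    ∃ (κ : Fin m → Fin m) (Z : Set (Fin m)), (∀ i, r i (κ i)) ∧ (∀ i, i ∉ Z → κ i ∈ Z) ∧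
      ∀ i ∈ Z, κ i ∉ Z ∧ κ (κ i) = i := by
  classical
  let good : Finset (Fin m × Fin m) → Prop := fun E =>
    (∀ i k, (i, k) ∈ E → (k, i) ∈ E) ∧ (∀ i k, (i, k) ∈ E → r i k) ∧ ∀ i, ∃ k, (i, k) ∈ E
  have hne : (Finset.univ.filter good).Nonempty := by
    refine ⟨Finset.univ.filter fun x => r x.1 x.2, ?_⟩
    rw [Finset.mem_filter]
    refine ⟨Finset.mem_univ _, ?_, ?_, ?_⟩
    · intro i k hik
      rw [Finset.mem_filter] at hik ⊢
      exact ⟨Finset.mem_univ _, hsymm _ _ hik.2⟩
    · intro i k hik
      rw [Finset.mem_filter] at hik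
      exact hik.2
    · intro i
      obtain ⟨k, hk⟩ := h i
      exact ⟨k, Finset.mem_filter.mpr ⟨Finset.mem_univ _, hk⟩⟩
  obtain ⟨E, hE, hmin⟩ := Finset.exists_min_image _ Finset.card hne
  rw [Finset.mem_filter] at hE
  obtain ⟨-, hEs, hEr, hEn⟩ := hE
  let D : Fin m → Prop := fun i => ∀ k k', (i, k) ∈ E → (i, k') ∈ E → k = k'
  have hD : ∀ i k, (i, k) ∈ E → D i ∨ D k := by
    intro i k hik
    by_contra hcon
    rw [not_or] at hcon
    obtain ⟨h1, h2⟩ := hcon
    have hne' : i ≠ k := hirr _ _ (hEr _ _ hik)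
    have h1' : ∃ k', k' ≠ k ∧ (i, k') ∈ E := by
      by_contra hc
      push Not at hc
      apply h1
      intro a b ha hb
      have ha' : a = k := by
        by_contra h0
        exact hc a h0 ha
      have hb' : b = k := by
        by_contra h0
        exact hc b h0 hb
      rw [ha', hb']
    have h2' : ∃ i', i' ≠ i ∧ (k, i') ∈ E := by
      by_contra hc
      push Not at hc
      apply h2
      intro a b ha hb
      have ha' : a = i := by
        by_contra h0
        exact hc a h0 ha
      have hb' : b = i := by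
        by_contra h0
        exact hc b h0 hb
      rw [ha', hb']
    obtain ⟨k', hk', hik'⟩ := h1'
    obtain ⟨i', hi', hki'⟩ := h2'
    let E' := (E.erase (i, k)).erase (k, i)
    have hmem : ∀ a b, (a, b) ∈ E' ↔ (a, b) ≠ (k, i) ∧ (a, b) ≠ (i, k) ∧ (a, b) ∈ E := by
      intro a b
      rw [Finset.mem_erase, Finset.mem_erase]
    have hE' : E' ∈ Finset.univ.filter good := by
      rw [Finset.mem_filter]
      refine ⟨Finset.mem_univ _, ?_, ?_, ?_⟩
      · intro a b hab
        rw [hmem] at hab ⊢
        refine ⟨?_, ?_, hEs _ _ hab.2.2⟩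
        · intro h0
          apply hab.2.1
          rw [Prod.mk.injEq] at h0 ⊢
          exact ⟨h0.2, h0.1⟩
        · intro h0
          apply hab.1
          rw [Prod.mk.injEq] at h0 ⊢
          exact ⟨h0.2, h0.1⟩
      · intro a b hab
        rw [hmem] at hab
        exact hEr _ _ hab.2.2
      · intro a
        by_cases ha : a = i
        · subst ha
          refine ⟨k', ?_⟩
          rw [hmem]
          refine ⟨?_, ?_, hik'⟩
          · intro h0
            rw [Prod.mk.injEq] at h0
            exact hne' h0.1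
          · intro h0
            rw [Prod.mk.injEq] at h0
            exact hk' h0.2
        · by_cases ha' : a = k
          · subst ha'
            refine ⟨i', ?_⟩
            rw [hmem]
            refine ⟨?_, ?_, hki'⟩
            · intro h0
              rw [Prod.mk.injEq] at h0
              exact hi' h0.2
            · intro h0
              rw [Prod.mk.injEq] at h0
              exact ha h0.1
          · obtain ⟨b, hb⟩ := hEn a
            refine ⟨b, ?_⟩
            rw [hmem]
            refine ⟨?_, ?_, hb⟩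
            · intro h0
              rw [Prod.mk.injEq] at h0
              exact ha' h0.1
            · intro h0
              rw [Prod.mk.injEq] at h0
              exact ha h0.1
    have hcard := hmin E' hE'
    have h3 : E'.card < E.card := by
      refine lt_of_le_of_lt (Finset.card_le_card (Finset.erase_subset _ _)) ?_
      exact Finset.card_erase_lt_of_mem hik
    omega
  choose κ hκ using hEn
  refine ⟨κ, {i | ¬ D i ∨ (D (κ i) ∧ i < κ i)}, fun i => hEr _ _ (hκ i), ?_, ?_⟩
  · intro i hi
    rw [Set.mem_ofPred_eq, not_or, not_not] at hi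
    rw [Set.mem_ofPred_eq]
    by_cases h1 : D (κ i)
    · right
      have h2 : κ (κ i) = i := h1 _ _ (hκ _) (hEs _ _ (hκ i))
      rw [h2]
      refine ⟨hi.1, ?_⟩
      have h3 : ¬ i < κ i := fun h0 => hi.2 ⟨h1, h0⟩
      exact lt_of_le_of_ne (not_lt.mp h3) fun h0 => hirr _ _ (hEr _ _ (hκ i)) h0.symm
    · left
      exact h1
  · intro i hi
    rw [Set.mem_ofPred_eq] at hi
    rcases hi with h1 | ⟨h1, h2⟩
    · have h2 : D (κ i) := (hD _ _ (hκ i)).resolve_left h1
      have h3 : κ (κ i) = i := h2 _ _ (hκ _) (hEs _ _ (hκ i))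
      refine ⟨?_, h3⟩
      rw [Set.mem_ofPred_eq, h3]
      rintro (h4 | ⟨h4, -⟩)
      · exact h4 h2
      · exact h1 h4
    · have h3 : κ (κ i) = i := h1 _ _ (hκ _) (hEs _ _ (hκ i))
      refine ⟨?_, h3⟩
      rw [Set.mem_ofPred_eq, h3]
      rintro (h4 | ⟨-, h4⟩)
      · exact h4 h1
      · exact lt_asymm h2 h4

end Pool.Agent.RFL
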