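import Pool.Agent.Lib_helper87.RF.Depth
import Pool.Agent.Lib_helper87.RF.Comm
import Pool.Agent.Lib_helper87.RF.Inv
import Pool.Agent.Lib_helper87.RF.Star

/-!
# Reflections: the main theorem
-/

set_option autoImplicit false

namespace Pool.Agent.RFL

open Matrix NumberField Topology Polynomial
open Pool.Agent.TT Pool.Agent.TB Pool.Agent.TF Pool.Agent.RF Pool.Agent.TU

/-- A product with invertible leading term. -/
theorem rm_product {G : Type} [Group G] {p : ℕ} [Fact p.Prime] {d m c : ℕ}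
    (X : G →* Matrix (Fin d) (Fin d) ℂ_[p]) (π : nv ℂ_[p]) (hπ : ‖(π : ℂ_[p])‖ < 1)
    (v : Matrix (Fin d) (Fin m × Fin c) (IsLocalRing.ResidueField (nv ℂ_[p])))
    (f : Matrix (Fin m × Fin c) (Fin d) (IsLocalRing.ResidueField (nv ℂ_[p])))
    (B : Matrix (Fin m) (Fin m) (IsLocalRing.ResidueField (nv ℂ_[p]))) (hB : f * v = kr c B)
    (hdet : B.det ≠ 0) (g : Fin m → G)
    (D : Fin m → Matrix (Fin m) (Fin m) (IsLocalRing.ResidueField (nv ℂ_[p])))
    (hg : ∀ i, Lv X π (g i) (vpf v (D i) f)) (n : Fin m → ℕ) (hn : (∑ i, n i • D i).det ≠ 0) :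
    ∃ (w : G) (T : Matrix (Fin d) (Fin d) (IsLocalRing.ResidueField (nv ℂ_[p]))),
      Lv X π w T ∧ T.charpoly.coeff (d - m * c) ≠ 0 := by
  classical
  refine ⟨((List.finRange m).map fun i => g i ^ n i).prod, vpf v (∑ i, n i • D i) f, ?_, ?_⟩
  · have h1 := lv_list X hπ (List.finRange m) (fun i => g i ^ n i)
      (fun i => n i • (vpf v (D i) f)) (fun i => lv_pow X hπ (hg i) (n i))
    rw [← Fin.sum_univ_def, iv_vpf_sum] at h1
    exact h1
  · have hBdet : (kr c B).det ≠ 0 := by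
      rw [kr_det]
      exact pow_ne_zero _ hdet
    have hle : m * c ≤ d := by
      have h1 : (f * v).rank ≤ f.rank := Matrix.rank_mul_le_left f v
      have h3 : (f * v).rank = m * c := by
        rw [hB]
        have h4 := Matrix.rank_of_isUnit (kr c B) ((Matrix.isUnit_iff_isUnit_det _).mpr
          (isUnit_iff_ne_zero.mpr hBdet))
        rwa [Fintype.card_prod, Fintype.card_fin, Fintype.card_fin] at h4
      have h4 : f.rank ≤ d := by
        have h5 := f.rank_le_card_width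
        rwa [Fintype.card_fin] at h5
      omega
    set P := ∑ i, n i • D i with hP
    unfold vpf
    rw [Matrix.mul_assoc, Matrix.charpoly_mul_comm_of_le v (kr c P * f) (by
      rw [Fintype.card_prod, Fintype.card_fin, Fintype.card_fin, Fintype.card_fin]
      exact hle), Fintype.card_prod, Fintype.card_fin, Fintype.card_fin, Fintype.card_fin,
      Polynomial.coeff_X_pow_mul', if_pos le_rfl, Nat.sub_self, Matrix.mul_assoc, hB, kr_mul]
    have h5 := Matrix.det_eq_sign_charpoly_coeff (kr c (P * B))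
    intro h0
    rw [h0, mul_zero, kr_det, Matrix.det_mul] at h5
    exact pow_ne_zero c (mul_ne_zero hn hdet) h5

/-- The product of reflections with invertible leading term. -/
theorem rm_element {G : Type} [Group G] {p : ℕ} [Fact p.Prime] {d m c : ℕ}
    (X : G →* Matrix (Fin d) (Fin d) ℂ_[p]) (lam : nv ℂ_[p]) (hlam1 : ‖(lam : ℂ_[p])‖ < 1)
    (s : Fin m → G) (v : Matrix (Fin d) (Fin m × Fin c) (IsLocalRing.ResidueField (nv ℂ_[p])))
    (f : Matrix (Fin m × Fin c) (Fin d) (IsLocalRing.ResidueField (nv ℂ_[p])))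
    (hs : ∀ i, Lv X lam (s i) (vpf v (sg _ i) f))
    (B : Matrix (Fin m) (Fin m) (IsLocalRing.ResidueField (nv ℂ_[p]))) (hB : f * v = kr c B)
    (hdet : B.det ≠ 0) (e : ℕ)
    (hlink : (e = 3 ∧ p ≠ 2 ∧ ∀ i, ∃ k, k ≠ i ∧ B i k * B k i ≠ 0) ∨
      ∃ μ : Fin m → Fin m, (∀ i, μ (μ i) = i ∧ μ i ≠ i ∧ B i (μ i) ≠ 0) ∧
        (e = 2 ∨ (e = 3 ∧ ∀ i, B i i ≠ 0))) :
    ∃ (w : G) (T : Matrix (Fin d) (Fin d) (IsLocalRing.ResidueField (nv ℂ_[p]))),
      Lv X (lam ^ e) w T ∧ T.charpoly.coeff (d - m * c) ≠ 0 := by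
  classical
  have hchar : CharP (IsLocalRing.ResidueField (nv ℂ_[p])) p := residue_charP p
  have hpp : p.Prime := Fact.out
  have h2 : p ≠ 2 → (2 : IsLocalRing.ResidueField (nv ℂ_[p])) ≠ 0 := by
    intro hp2 h0
    have h1 : ((2 : ℕ) : IsLocalRing.ResidueField (nv ℂ_[p])) = 0 := by
      push_cast
      exact h0
    rw [CharP.cast_eq_zero_iff _ p] at h1
    exact hp2 ((Nat.prime_dvd_prime_iff_eq hpp Nat.prime_two).mp h1)
  have hll : ∀ e : ℕ, e ≠ 0 → ‖((lam ^ e : nv ℂ_[p]) : ℂ_[p])‖ < 1 := by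
    intro e he
    have h1 : ((lam ^ e : nv ℂ_[p]) : ℂ_[p]) = (lam : ℂ_[p]) ^ e := rfl
    rw [h1, norm_pow]
    exact pow_lt_one₀ (norm_nonneg _) hlam1 he
  have hc2 : ∀ i l, Lv X (lam ^ 2) (s i * s l * (s i)⁻¹ * (s l)⁻¹) (vpf v (duo B i l) f) := by
    intro i l
    have h1 := lv_comm X hlam1 hlam1 (hs i) (hs l)
    rw [iv_vpf_mul v f B hB, iv_vpf_mul v f B hB, iv_vpf_sub, iv_duo] at h1
    rw [pow_two]
    exact h1
  have hc3 : ∀ i l, Lv X (lam ^ 3) (s i * (s i * s l * (s i)⁻¹ * (s l)⁻¹) * (s i)⁻¹ *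
      (s i * s l * (s i)⁻¹ * (s l)⁻¹)⁻¹) (vpf v (tri B i l) f) := by
    intro i l
    have h1 := lv_comm X hlam1 (hll 2 two_ne_zero) (hs i) (hc2 i l)
    rw [iv_vpf_mul v f B hB, iv_vpf_mul v f B hB, iv_vpf_sub, ← iv_duo, iv_tri] at h1
    rw [pow_succ' lam 2]
    exact h1
  rcases hlink with ⟨he, hp2, hiso⟩ | ⟨μ, hμ, he⟩
  · obtain ⟨κ, Z, hκ, hZ1, hZ2⟩ := st_forest (fun i k => k ≠ i ∧ B i k * B k i ≠ 0)
      (fun i k h => ⟨h.1.symm, by rw [mul_comm]; exact h.2⟩) (fun i k h => h.1.symm) hiso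
    obtain ⟨n, hn⟩ := iv_main (h2 hp2) B κ Z (fun i => (hκ i).2) hZ1 hZ2
    rw [he]
    exact rm_product X (lam ^ 3) (hll 3 three_ne_zero) v f B hB hdet _ _ (fun i => hc3 i (κ i)) n hn
  · rcases he with he | ⟨he, hd⟩
    · rw [he]
      exact rm_product X (lam ^ 2) (hll 2 two_ne_zero) v f B hB hdet _ _ (fun i => hc2 i (μ i)) _
        (iv_match2 B μ (fun i => (hμ i).1) (fun i => (hμ i).2.1) (fun i => (hμ i).2.2))
    · rw [he]
      by_cases hp2 : (2 : IsLocalRing.ResidueField (nv ℂ_[p])) = 0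
      · exact rm_product X (lam ^ 3) (hll 3 three_ne_zero) v f B hB hdet _ _
          (fun i => hc3 i (μ i)) _
          (iv_match3 hp2 B μ (fun i => (hμ i).1) (fun i => (hμ i).2.1) (fun i => (hμ i).2.2) hd)
      · obtain ⟨κ, Z, hκ, hZ1, hZ2⟩ := st_forest (fun i k => k ≠ i ∧ B i k * B k i ≠ 0)
          (fun i k h => ⟨h.1.symm, by rw [mul_comm]; exact h.2⟩) (fun i k h => h.1.symm) (by
            intro i
            refine ⟨μ i, (hμ i).2.1, mul_ne_zero (hμ i).2.2 ?_⟩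
            have h3 := (hμ (μ i)).2.2
            rwa [(hμ i).1] at h3)
        obtain ⟨n, hn⟩ := iv_main hp2 B κ Z (fun i => (hκ i).2) hZ1 hZ2
        exact rm_product X (lam ^ 3) (hll 3 three_ne_zero) v f B hB hdet _ _
          (fun i => hc3 i (κ i)) n hn

/-- A matrix close to a reflection. -/
theorem rm_lv {p : ℕ} [Fact p.Prime] {d c : ℕ} (lam : nv ℂ_[p]) (hlam0 : lam ≠ 0)
    (X : Matrix (Fin d) (Fin d) ℂ_[p]) (v : Matrix (Fin d) (Fin c) (nv ℂ_[p]))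
    (f : Matrix (Fin c) (Fin d) (nv ℂ_[p]))
    (h : ∀ k l, ‖(X - 1 - (lam : ℂ_[p]) • (v.map (nv ℂ_[p]).subtype * f.map (nv ℂ_[p]).subtype) :
      Matrix (Fin d) (Fin d) ℂ_[p]) k l‖ < ‖(lam : ℂ_[p])‖) :
    ∃ Y : Matrix (Fin d) (Fin d) (nv ℂ_[p]), X = (1 + lam • Y).map (nv ℂ_[p]).subtype ∧
      Y.map (IsLocalRing.residue (nv ℂ_[p])) =
        v.map (IsLocalRing.residue (nv ℂ_[p])) * f.map (IsLocalRing.residue (nv ℂ_[p])) := by
  obtain ⟨Y, hY1, hY2⟩ := dp_close lam hlam0 (v * f) X (by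
    intro k l
    have h2 := h k l
    have h3 : X - (1 + lam • (v * f)).map (nv ℂ_[p]).subtype =
        X - 1 - (lam : ℂ_[p]) • (v.map (nv ℂ_[p]).subtype * f.map (nv ℂ_[p]).subtype) := by
      rw [Matrix.map_add _ (map_add _), Matrix.map_one _ (map_zero _) (map_one _),
        ← Matrix.map_mul, sub_sub]
      rfl
    rw [h3]
    exact h2)
  refine ⟨Y, hY1, ?_⟩
  rw [hY2, Matrix.map_mul]

/-- An element of norm one has a nonzero residue. -/
theorem rm_unit {C : Type} [NormedField C] [IsUltrametricDist C] (x : nv C)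
    (hx : ‖(x : C)‖ = 1) : IsLocalRing.residue (nv C) x ≠ 0 := by
  have hx0 : (x : C) ≠ 0 := by
    intro h0
    rw [h0, norm_zero] at hx
    exact zero_ne_one hx
  rw [IsLocalRing.residue_ne_zero_iff_isUnit]
  have hinv : ‖(x : C)⁻¹‖ ≤ 1 := by rw [norm_inv, hx, inv_one]
  exact IsUnit.of_mul_eq_one ⟨(x : C)⁻¹, hinv⟩ (Subtype.ext (mul_inv_cancel₀ hx0))

/-- **The main theorem.** -/
theorem rf_main {K : Type} [Field K] [NumberField K] [Algebra K Qbar] {E : Type} [Field E]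
    {p : ℕ} [Fact p.Prime] (ip : E →+* ℂ_[p]) {d m c : ℕ}
    (R : (Qbar ≃ₐ[K] Qbar) →* Matrix (Fin d) (Fin d) ℂ_[p]) (hR : Continuous R)
    (j n : ℕ) (lam : ℂ_[p]) (hlam0 : lam ≠ 0) (hlam1 : ‖lam‖ < 1)
    (hlam3 : ∀ (x : ℂ_[p]) (e : ℕ), 0 < e → x ^ e = 1 → ‖lam‖ ^ n ≠ ‖1 - x‖)
    (s : Fin m → (Qbar ≃ₐ[K] Qbar)) (v : Fin m → Matrix (Fin d) (Fin c) ℂ_[p])
    (f : Fin m → Matrix (Fin c) (Fin d) ℂ_[p])
    (hs : ∀ i, ReflectionLike lam (cycC p (s i) ^ j • R (s i)) (v i) (f i))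
    (A : Matrix (Fin m) (Fin m) ℂ_[p]) (hA1 : ∀ i k, ‖A i k‖ ≤ 1)
    (hA : ∀ i k a b, ‖(f i * v k - A i k • 1 : Matrix (Fin c) (Fin c) ℂ_[p]) a b‖ < 1)
    (hdet : ‖A.det‖ = 1) (hlink : Linked p n A)
    {ℓ : ℕ} [Fact ℓ.Prime] (il : E →+* PadicAlgCl ℓ) {V : Type} [AddCommGroup V]
    [Module (PadicAlgCl ℓ) V] [Module.Finite (PadicAlgCl ℓ) V]
    (ρ : Representation (PadicAlgCl ℓ) (Qbar ≃ₐ[K] Qbar) V) (hρ : Compatible ip il R ρ) :
    TateClassesLE ρ j (d - m * c) := by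
  classical
  let X : (Qbar ≃ₐ[K] Qbar) →* Matrix (Fin d) (Fin d) ℂ_[p] :=
    { toFun := fun g => cycC p g ^ j • R g
      map_one' := by rw [cycC_one, one_pow, one_smul, map_one]
      map_mul' := fun g h => by rw [cycC_mul, mul_pow, map_mul, smul_mul_smul_comm] }
  let lam' : nv ℂ_[p] := ⟨lam, hlam1.le⟩
  have hlam'0 : lam' ≠ 0 := fun h0 => hlam0 (congrArg Subtype.val h0)
  let v' : Matrix (Fin d) (Fin m × Fin c) (nv ℂ_[p]) := fun k x => ⟨v x.1 k x.2, (hs x.1).1 k x.2⟩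
  let f' : Matrix (Fin m × Fin c) (Fin d) (nv ℂ_[p]) := fun x k =>
    ⟨f x.1 x.2 k, (hs x.1).2.1 x.2 k⟩
  let A' : Matrix (Fin m) (Fin m) (nv ℂ_[p]) := fun i k => ⟨A i k, hA1 i k⟩
  have hs' : ∀ i, Lv X lam' (s i) (vpf (v'.map (IsLocalRing.residue (nv ℂ_[p]))) (sg _ i)
      (f'.map (IsLocalRing.residue (nv ℂ_[p])))) := by
    intro i
    rw [iv_sg]
    exact rm_lv lam' hlam'0 (X (s i)) (Matrix.of fun k a => v' k (i, a))
      (Matrix.of fun a k => f' (i, a) k) (hs i).2.2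
  obtain ⟨w, T, ⟨Y, hY1, hY2⟩, hT⟩ := rm_element X lam' hlam1 s _ _ hs'
    (A'.map (IsLocalRing.residue (nv ℂ_[p]))) (by
      rw [← Matrix.map_mul]
      ext ⟨i, a⟩ ⟨k, b⟩
      rw [kr_apply, Matrix.map_apply, Matrix.map_apply]
      have h1 : ((((f' * v') (i, a) (k, b) - A' i k * (1 : Matrix (Fin c) (Fin c) (nv ℂ_[p])) a b :
          nv ℂ_[p])) : ℂ_[p]) = (f i * v k - A i k • 1 : Matrix (Fin c) (Fin c) ℂ_[p]) a b := by
        have h3 : (((f' * v') (i, a) (k, b) : nv ℂ_[p]) : ℂ_[p]) = (f i * v k) a b := by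
          rw [Matrix.mul_apply]
          exact map_sum (nv ℂ_[p]).subtype _ _
        have h4 : ((A' i k * (1 : Matrix (Fin c) (Fin c) (nv ℂ_[p])) a b : nv ℂ_[p]) : ℂ_[p]) =
            (A i k • 1 : Matrix (Fin c) (Fin c) ℂ_[p]) a b := by
          rw [Matrix.smul_apply, smul_eq_mul, Matrix.one_apply, Matrix.one_apply]
          split_ifs
          · rfl
          · rfl
        rw [Matrix.sub_apply, ← h3, ← h4]
        rfl
      have h2 := residue_zero _ (by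
        rw [h1]
        exact hA i k a b)
      rw [map_sub, sub_eq_zero, map_mul] at h2
      rw [h2]
      congr 1
      rw [Matrix.one_apply, Matrix.one_apply]
      split_ifs
      · exact map_one _
      · exact map_zero _) (by
      rw [← RingHom.mapMatrix_apply, ← RingHom.map_det]
      apply rm_unit
      have h1 : ((A'.det : nv ℂ_[p]) : ℂ_[p]) = A.det := by
        have h3 := RingHom.map_det (nv ℂ_[p]).subtype A'
        exact h3
      rw [h1]
      exact hdet) n (by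
      rcases hlink with ⟨he, hp2, hiso⟩ | ⟨μ, hμ, he⟩
      · left
        refine ⟨he, hp2, fun i => ?_⟩
        obtain ⟨k, hk, h1, h2⟩ := hiso i
        exact ⟨k, hk, mul_ne_zero (rm_unit (A' i k) h1) (rm_unit (A' k i) h2)⟩
      · right
        refine ⟨μ, fun i => ⟨(hμ i).1, (hμ i).2.1, rm_unit (A' i (μ i)) (hμ i).2.2⟩, ?_⟩
        rcases he with he | ⟨he, hd⟩
        · exact Or.inl he
        · exact Or.inr ⟨he, fun i => rm_unit (A' i i) (hd i)⟩)
  refine dp_main ip R hR j w (lam' ^ n) ?_ ?_ Y hY1 (d - m * c) ?_ il ρ hρ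
  · exact pow_ne_zero _ hlam'0
  · intro x e he hx
    have h1 : ‖((lam' ^ n : nv ℂ_[p]) : ℂ_[p])‖ = ‖lam‖ ^ n := by
      have h2 : ((lam' ^ n : nv ℂ_[p]) : ℂ_[p]) = lam ^ n := rfl
      rw [h2, norm_pow]
    rw [h1]
    exact hlam3 x e he hx
  · rw [hY2]
    exact hT

end Pool.Agent.RFL
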