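import Pool.Agent.Lib_helper61.TU.Statement

/-!
# Reflections: definitions
-/

set_option autoImplicit false

namespace Pool.Agent.RFL

open NumberField Pool.Agent.TT

/-- The `p`-adic representation `R` and the `ℓ`-adic representation `ρ` of the absolute Galois group
of `K` are compatible over the field `E`, which is embedded in `ℂ_[p]` by `i` and in the algebraic
closure of `ℚ_[ℓ]` by `i'`: for almost all primes `q`, all prime ideals `𝔓` of the ring of algebraic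
integers above `q` and all elements `σ` of the Galois group that induce `x ↦ x ^ q` modulo `𝔓`,
the characteristic polynomials of `R(σ⁻¹)` and `ρ(σ⁻¹)` are the images of one polynomial over
`E`. -/
def Compatible {K : Type} [Field K] [Algebra K Qbar] {E : Type} [Field E] {p : ℕ} [Fact p.Prime]
    {ℓ : ℕ} [Fact ℓ.Prime] (i : E →+* ℂ_[p]) (i' : E →+* PadicAlgCl ℓ) {d : ℕ}
    (R : (Qbar ≃ₐ[K] Qbar) →* Matrix (Fin d) (Fin d) ℂ_[p]) {V : Type} [AddCommGroup V]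
    [Module (PadicAlgCl ℓ) V] [Module.Finite (PadicAlgCl ℓ) V]
    (ρ : Representation (PadicAlgCl ℓ) (Qbar ≃ₐ[K] Qbar) V) : Prop :=
  ∃ B : Finset ℕ, ∀ q : ℕ, q.Prime → q ∉ B → ∀ 𝔓 : Ideal (𝓞 Qbar), 𝔓.IsPrime →
    (q : 𝓞 Qbar) ∈ 𝔓 → ∀ σ : Qbar ≃ₐ[K] Qbar,
      (∀ x y : 𝓞 Qbar, (y : Qbar) = σ x → y - x ^ q ∈ 𝔓) →
        ∃ f : Polynomial E, (R σ⁻¹).charpoly = f.map i ∧ (ρ σ⁻¹).charpoly = f.map i'

/-- The matrices `v` and `f` are integral, and `X - 1 - lam v f` is divisible by `lam` times the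
maximal ideal. If `v` is a column and `f` is a row then `X` is close to the complex reflection
`1 + lam v f`. -/
def ReflectionLike {p : ℕ} [Fact p.Prime] {d c : ℕ} (lam : ℂ_[p])
    (X : Matrix (Fin d) (Fin d) ℂ_[p]) (v : Matrix (Fin d) (Fin c) ℂ_[p])
    (f : Matrix (Fin c) (Fin d) ℂ_[p]) : Prop :=
  (∀ k a, ‖v k a‖ ≤ 1) ∧ (∀ a k, ‖f a k‖ ≤ 1) ∧
    ∀ k l, ‖(X - 1 - lam • (v * f) : Matrix (Fin d) (Fin d) ℂ_[p]) k l‖ < ‖lam‖

/-- The condition on the matrix `A` and the number `n`: either `n = 3`, the prime `p` is odd and for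
every `i` there is `k ≠ i` with `|A_ik| = |A_ki| = 1`; or there is an involution `μ` of the indices
without fixed points such that `|A_ik| = 1` for `k = μ(i)`, and `n = 2` or `n = 3` and
`|A_ii| = 1` for all `i`. -/
def Linked (p n : ℕ) {m : ℕ} {C : Type} [Norm C] (A : Matrix (Fin m) (Fin m) C) : Prop :=
  (n = 3 ∧ p ≠ 2 ∧ ∀ i, ∃ k, k ≠ i ∧ ‖A i k‖ = 1 ∧ ‖A k i‖ = 1) ∨
    ∃ μ : Fin m → Fin m, (∀ i, μ (μ i) = i ∧ μ i ≠ i ∧ ‖A i (μ i)‖ = 1) ∧
      (n = 2 ∨ (n = 3 ∧ ∀ i, ‖A i i‖ = 1))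

end Pool.Agent.RFL
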